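import Pool.Agent.H.MP_0f105f_co.B

namespace Pool.Agent.Results.MP_0f105f_co.NonLinear

/-- A (thick) generalized quadrangle. -/
structure GQ where
  P : Type
  L : Type
  I : P → L → Prop
  two : ∀ p q l m, p ≠ q → I p l → I q l → I p m → I q m → l = m
  line3 : ∀ l, ∃ a b c, a ≠ b ∧ a ≠ c ∧ b ≠ c ∧ I a l ∧ I b l ∧ I c l
  point3 : ∀ p, ∃ a b c, a ≠ b ∧ a ≠ c ∧ b ≠ c ∧ I p a ∧ I p b ∧ I p c
  proj : ∀ p l, ¬ I p l → ∃! q, I q l ∧ ∃ m, I p m ∧ I q m

/-- Two points are collinear. -/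
def GQ.Col (S : GQ) (p q : S.P) : Prop := ∃ l, S.I p l ∧ S.I q l

/-- The abelian group G acts by elations about x, sharply transitively on the points not
collinear with x. -/
structure IsTGQ (S : GQ) (x : S.P) (G : Type) [AddCommGroup G] [AddAction G S.P]
    [AddAction G S.L] : Prop where
  aut : ∀ (g : G) (p : S.P) (l : S.L), S.I (g +ᵥ p) (g +ᵥ l) ↔ S.I p l
  elation : ∀ g : G, ((∀ p : S.P, g +ᵥ p = p) ∧ ∀ l : S.L, g +ᵥ l = l) ∨
    ((∀ l : S.L, S.I x l → g +ᵥ l = l) ∧ ∀ p : S.P, ¬ S.Col p x → g +ᵥ p ≠ p)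
  sharp : ∀ p q : S.P, ¬ S.Col p x → ¬ S.Col q x → ∃! g : G, g +ᵥ p = q

/-- The kernel: endomorphisms preserving the stabiliser of each line M through y meeting a line
L through x, and the stabiliser of the point z where M meets L. -/
def InKernel (S : GQ) (x y : S.P) {G : Type} [AddCommGroup G] [AddAction G S.P] [AddAction G S.L]
    (α : G →+ G) : Prop :=
  ∀ (L M : S.L) (z : S.P), S.I x L → S.I y M → S.I z L → S.I z M →
    (∀ g : G, g +ᵥ M = M → α g +ᵥ M = M) ∧ (∀ g : G, g +ᵥ z = z → α g +ᵥ z = z)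

open H.TGQ in
def ex : GQ := ⟨Pt, Ln, Inc, two, line3, point3, proj⟩

noncomputable instance : AddAction H.TGQ.GG ex.P := inferInstanceAs (AddAction H.TGQ.GG H.TGQ.Pt)
noncomputable instance : AddAction H.TGQ.GG ex.L := inferInstanceAs (AddAction H.TGQ.GG H.TGQ.Ln)

open H.TGQ in
theorem result : ∃ (S : GQ) (x : S.P) (G : Type) (_ : AddCommGroup G) (_ : AddAction G S.P)
    (_ : AddAction G S.L), IsTGQ S x G ∧ (∃ y : S.P, ¬ S.Col y x) ∧
    ∀ y : S.P, ¬ S.Col y x → ∃ α : G →+ G, InKernel S x y α ∧ α ≠ 0 ∧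
      ¬ ∃ β : G →+ G, InKernel S x y β ∧ α.comp β = AddMonoidHom.id G ∧
        β.comp α = AddMonoidHom.id G := by
  refine ⟨ex, Pt.inf, GG, inferInstance, inferInstance, inferInstance, ⟨aut, ?_, ?_⟩,
    ⟨Pt.aff 0, (notcol _).2 ⟨0, rfl⟩⟩, fun y hy => ⟨mulX, ?_, ?_, ?_⟩⟩
  · intro g
    by_cases hg : g = 0
    · left; subst hg; exact ⟨fun p => zero_vadd _ p, fun l => zero_vadd _ l⟩
    · right
      refine ⟨fun l hl => ?_, fun p hp => ?_⟩
      · rcases l with ⟨j, c, e⟩ | j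
        · exact absurd hl id
        · rfl
      · obtain ⟨h, rfl⟩ := (notcol p).1 hp
        intro e
        have : g + h = h := Pt.aff.inj e
        exact hg (by simpa using this)
  · intro p q hp hq
    obtain ⟨g, rfl⟩ := (notcol p).1 hp
    obtain ⟨h, rfl⟩ := (notcol q).1 hq
    refine ⟨h - g, congrArg Pt.aff (sub_add_cancel h g), fun k e => ?_⟩
    have : k + g = h := Pt.aff.inj e
    exact eq_sub_of_add_eq this
  · intro L M z h1 _ h3 _
    refine ⟨fun g => mulX_L g M, fun g => ?_⟩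
    rcases z with h | ⟨j, c⟩ | _
    · rcases L with ⟨j, c, e⟩ | j
      · exact absurd h1 id
      · exact absurd h3 id
    · exact mulX_P g j c
    · exact fun _ => rfl
  · intro h
    have h1 : mulX ((1, 0, 0) : GG) = 0 := by rw [h]; rfl
    have h2 : Polynomial.X * (1 : R) = 0 := congrArg Prod.fst h1
    simp at h2
  · rintro ⟨β, -, h, -⟩
    exact mulX_ne (β (1, 0, 0)) (DFunLike.congr_fun h (1, 0, 0))

end Pool.Agent.Results.MP_0f105f_co.NonLinear
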